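import Pool.Agent.LibCUR2.Main
import Pool.Agent.LibLB.Conv

/-!
THEOREM K+, block CUR-2: the two inputs `CurveFacts` and `HodgeFact` of part B+.
-/

set_option autoImplicit false

open Pool.Agent.LibGMM Pool.Agent.LibK Pool.Agent.LibKB

namespace Pool.Agent.LibCUR2

open Pool.Agent.LibKB2 (dlt isDiv_dlt IsDiv.sub')
open Pool.Agent.LibLB

variable {L : Type} [Field L] [Algebra ℂ L]

theorem h0_sub (S : PSurf L) {ν : DVal L} (hν : ν ∈ S.prm) {D : DVal L → ℤ}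
    (hD : IsDiv S.prm D) : h0 S.prm (fun μ => D μ - prd ν μ) = S.hh (S.cl D - S.cls ν) := by
  rw [← dlt_eq_prd ν]
  change h0 S.prm (D - dlt ν) = _
  rw [← PSurf.hh_cl (IsDiv.sub' hD (isDiv_dlt _ _)), cl_sub S hD (isDiv_dlt _ _), cl_dlt S hν]

/-- **Facts on curves.** -/
theorem curveFacts (S : PSurf L) : CurveFacts S := by
  intro ν hν
  obtain ⟨c₀, h4⟩ := C4 S hν
  refine ⟨A_pos S hν, fun D hD h => ?_, fun D hD h => ?_, pa_nonneg S hν,
    ⟨c₀, fun D hD h => ?_⟩, fun μ hμ hne => C1' S hμ hν hne⟩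
  · rw [h0_sub S hν hD, ← PSurf.hh_cl hD]
    exact C1 S hν _ h
  · rw [h0_sub S hν hD, ← PSurf.hh_cl hD]
    exact C2 S hν _ h
  · rw [h0_sub S hν hD, ← PSurf.hh_cl hD]
    exact h4 _ h

/-- **The Hodge index theorem.** -/
theorem hodgeFact (S : PSurf L) : HodgeFact S := fun _ h => hodge S h

end Pool.Agent.LibCUR2
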