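import Mathlib

/-!
THEOREM K+, block CUR-2: the Hodge index theorem from the Riemann-Roch inequality, abstractly.
-/

set_option autoImplicit false

namespace Pool.Agent.LibCUR2

variable {Λ : Type} [AddCommGroup Λ]

/-- Quadratic growth. -/
theorem exists_quad_pos {a : ℤ} (ha : 0 < a) (b c : ℤ) :
    ∃ m₀ : ℕ, ∀ m : ℕ, m₀ ≤ m → 0 < a * m ^ 2 + b * m + c := by
  refine ⟨b.natAbs + c.natAbs + 1, fun m hm => ?_⟩
  have h1 : (b.natAbs : ℤ) + c.natAbs + 1 ≤ m := by exact_mod_cast hm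
  have h2 : -(b.natAbs : ℤ) ≤ b := by omega
  have h3 : -(c.natAbs : ℤ) ≤ c := by omega
  have h4 : (0 : ℤ) ≤ b.natAbs := Int.natCast_nonneg _
  have h5 : (0 : ℤ) ≤ c.natAbs := Int.natCast_nonneg _
  generalize (b.natAbs : ℤ) = β at *
  generalize (c.natAbs : ℤ) = γ at *
  generalize (m : ℤ) = M at *
  have h6 : 1 ≤ M := by omega
  nlinarith [mul_nonneg h4 (by omega : (0 : ℤ) ≤ M), mul_nonneg h5 (by omega : (0 : ℤ) ≤ M - 1),
    mul_nonneg (by omega : (0 : ℤ) ≤ M - β - γ - 1) (by omega : (0 : ℤ) ≤ M),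
    mul_nonneg (by omega : (0 : ℤ) ≤ b + β) (by omega : (0 : ℤ) ≤ M),
    mul_nonneg (by omega : (0 : ℤ) ≤ a - 1) (mul_nonneg (by omega : (0 : ℤ) ≤ M)
      (by omega : (0 : ℤ) ≤ M))]

/-- The data used: the form, the canonical class, the ample class, the dimensions of the spaces of
sections and the Euler characteristic. -/
structure NumData (Λ : Type) [AddCommGroup Λ] where
  form : Λ →ₗ[ℤ] Λ →ₗ[ℤ] ℤ
  K : Λ
  A : Λ
  hh : Λ → ℕ
  chi0 : ℤ
  symm : ∀ a b, form a b = form b a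
  rr : ∀ α, 2 * chi0 + form α (α - K) ≤ 2 * ((hh α : ℤ) + hh (K - α))
  A_sq : 0 < form A A
  /-- effective classes of degree zero are zero -/
  deg : ∀ α, 0 < hh α → 0 ≤ form A α ∧ (form A α = 0 → α = 0)
  /-- `n A + F` is nef for some `n` -/
  nef : ∀ F, ∃ n : ℕ, ∀ α, 0 < hh α → 0 ≤ form (n • A + F) α

namespace NumData

variable (N : NumData Λ)

theorem rr_nsmul (D : Λ) (m : ℕ) : 2 * N.chi0 + N.form D D * m ^ 2 - N.form D N.K * m ≤
    2 * ((N.hh (m • D) : ℤ) + N.hh (N.K - m • D)) := by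
  have h := N.rr (m • D)
  have h1 : N.form (m • D) (m • D - N.K) = N.form D D * m ^ 2 - N.form D N.K * m := by
    simp only [map_sub, map_nsmul, LinearMap.smul_apply, nsmul_eq_mul]
    ring
  rw [h1] at h
  linarith

/-- A class of degree zero has square at most zero. -/
theorem sq_nonpos {D : Λ} (h : N.form N.A D = 0) : N.form D D ≤ 0 := by
  by_contra hcon
  rw [not_le] at hcon
  obtain ⟨n, hn⟩ := N.nef D
  have h1 : N.form (n • N.A + D) D = N.form D D := by
    simp only [map_add, map_nsmul, LinearMap.add_apply, LinearMap.smul_apply, nsmul_eq_mul, h]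
    ring
  obtain ⟨m₁, hm₁⟩ := exists_quad_pos hcon (-N.form D N.K) (2 * N.chi0)
  obtain ⟨m₂, hm₂⟩ : ∃ m₂ : ℕ, ∀ m : ℕ, m₂ ≤ m →
      N.form (n • N.A + D) (N.K - m • D) < 0 := by
    refine ⟨(N.form (n • N.A + D) N.K).natAbs + 1, fun m hm => ?_⟩
    have h2 : ((N.form (n • N.A + D) N.K).natAbs : ℤ) + 1 ≤ m := by exact_mod_cast hm
    have h3 : N.form (n • N.A + D) (N.K - m • D) =
        N.form (n • N.A + D) N.K - m * N.form D D := by
      rw [map_sub, map_nsmul, h1, nsmul_eq_mul]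
    rw [h3]
    have h4 : N.form (n • N.A + D) N.K ≤ (N.form (n • N.A + D) N.K).natAbs := by omega
    nlinarith
  have h2 := N.rr_nsmul D (m₁ + m₂ + 1)
  have h3 := hm₁ (m₁ + m₂ + 1) (by omega)
  have h4 := hm₂ (m₁ + m₂ + 1) (by omega)
  have h5 : N.hh (N.K - (m₁ + m₂ + 1) • D) = 0 := by
    by_contra h6
    exact absurd (hn _ (Nat.pos_of_ne_zero h6)) (not_le.2 h4)
  have h6 : 0 < N.hh ((m₁ + m₂ + 1) • D) := by
    rw [h5] at h2
    push_cast at h2 h3
    have h7 : (0 : ℤ) < N.hh ((m₁ + m₂ + 1) • D) := by linarith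
    exact_mod_cast h7
  have h7 := (N.deg _ h6).2 (by rw [map_nsmul, h, smul_zero])
  have h8 : N.form ((m₁ + m₂ + 1) • D) ((m₁ + m₂ + 1) • D) = 0 := by rw [h7, map_zero]
  simp only [map_nsmul, LinearMap.smul_apply, nsmul_eq_mul] at h8
  have h9 : (0 : ℤ) < ((m₁ + m₂ + 1 : ℕ) : ℤ) := by exact_mod_cast Nat.succ_pos _
  exact absurd h8 (mul_pos h9 (mul_pos h9 hcon)).ne'

/-- **The Hodge index theorem.** -/
theorem hodge {D : Λ} (h : N.form N.A D = 0) : N.form D D < 0 ∨ ∀ E, N.form D E = 0 := by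
  rcases (N.sq_nonpos h).lt_or_eq with h1 | h1
  · exact Or.inl h1
  right
  by_contra hcon
  push Not at hcon
  obtain ⟨E, hE⟩ := hcon
  obtain ⟨E', hE'⟩ : ∃ E', E' = N.form N.A N.A • E - N.form N.A E • N.A := ⟨_, rfl⟩
  have h2 : N.form N.A E' = 0 := by
    rw [hE']
    simp only [map_sub, map_smul, smul_eq_mul]
    ring
  have h3 : N.form D E' = N.form N.A N.A * N.form D E := by
    rw [hE']
    simp only [map_sub, map_smul, smul_eq_mul]
    rw [N.symm D N.A, h]
    ring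
  have h4 : ∀ k : ℤ, N.form (k • D + E') (k • D + E') =
      2 * k * N.form D E' + N.form E' E' := by
    intro k
    simp only [map_add, map_smul, LinearMap.add_apply, LinearMap.smul_apply, smul_eq_mul, h1]
    rw [N.symm E' D]
    ring
  have h5 : ∀ k : ℤ, 2 * k * N.form D E' + N.form E' E' ≤ 0 := by
    intro k
    rw [← h4]
    refine N.sq_nonpos ?_
    simp only [map_add, map_smul, smul_eq_mul, h, h2]
    ring
  have h6 : N.form D E' ≠ 0 := by
    rw [h3]
    exact mul_ne_zero N.A_sq.ne' hE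
  have h7 := h5 (N.form D E' * (|N.form E' E'| + 1))
  have h8 := neg_abs_le (N.form E' E')
  have h9 := abs_nonneg (N.form E' E')
  have h10 : 0 < N.form D E' ^ 2 := by positivity
  nlinarith

/-- A numerically trivial class is pseudo-effective: `t A + n D` is effective for all `n`. -/
theorem exists_eff {D : Λ} (h : ∀ E, N.form D E = 0) :
    ∃ t : ℕ, ∀ n : ℤ, 0 < N.hh (t • N.A + n • D) := by
  obtain ⟨m₁, hm₁⟩ := exists_quad_pos N.A_sq (-N.form N.A N.K) (2 * N.chi0)
  refine ⟨m₁ + (N.form N.A N.K).natAbs + 1, fun n => ?_⟩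
  obtain ⟨t, ht⟩ : ∃ t : ℕ, t = m₁ + (N.form N.A N.K).natAbs + 1 := ⟨_, rfl⟩
  rw [← ht]
  have h1 : N.hh (N.K - (t • N.A + n • D)) = 0 := by
    by_contra h2
    have h3 := (N.deg _ (Nat.pos_of_ne_zero h2)).1
    have h4 : N.form N.A (N.K - (t • N.A + n • D)) = N.form N.A N.K - t * N.form N.A N.A := by
      simp only [map_sub, map_add, map_nsmul, map_smul, nsmul_eq_mul, smul_eq_mul]
      rw [N.symm N.A D, h]
      ring
    rw [h4] at h3
    have h5 : (m₁ : ℤ) + (N.form N.A N.K).natAbs + 1 = t := by rw [ht]; push_cast; rfl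
    have h6 := N.A_sq
    have h7 : N.form N.A N.K ≤ (N.form N.A N.K).natAbs := by omega
    have h8 : (0 : ℤ) ≤ m₁ := Int.natCast_nonneg _
    nlinarith
  have h2 := N.rr (t • N.A + n • D)
  have h3 : N.form (t • N.A + n • D) (t • N.A + n • D - N.K) =
      N.form N.A N.A * t ^ 2 - N.form N.A N.K * t := by
    simp only [map_sub, map_add, map_nsmul, map_smul, LinearMap.add_apply, LinearMap.smul_apply,
      nsmul_eq_mul, smul_eq_mul]
    rw [N.symm N.A D, h, h, h]
    ring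
  have h4 := hm₁ t (by omega)
  rw [h1, h3] at h2
  have h5 : (0 : ℤ) < N.hh (t • N.A + n • D) := by
    push_cast at h2
    linarith
  exact_mod_cast h5

end NumData

end Pool.Agent.LibCUR2
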