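import Pool.Agent.LibCUR.G08b
import Pool.Agent.LibLB.Api

/-!
THEOREM K+, block CUR-2: the geometric data `Geo` of a `PSurf` and the curve theorems.
-/

set_option autoImplicit false

open Pool.Agent.LibGMM Pool.Agent.LibK Pool.Agent.LibKB

namespace Pool.Agent.LibCUR2

open Pool.Agent.LibKB2 (dlt dlt_self dlt_ne isDiv_dlt IsDiv.add' IsDiv.neg' IsDiv.sub' IsDiv.zsmul')
open Pool.Agent.LibLB
open Pool.Agent.LibCUR (Geo geo_curve)

variable {L : Type} [Field L] [Algebra ℂ L]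

theorem dlt_eq_prd (ν : DVal L) : dlt ν = prd ν := by
  funext μ
  by_cases h : μ = ν
  · rw [h, dlt_self, prd_self]
  · rw [dlt_ne h, prd_ne h]

variable (S : PSurf L)

theorem isDiv_nsmul {D : DVal L → ℤ} (hD : IsDiv S.prm D) (n : ℕ) : IsDiv S.prm (n • D) := by
  refine hD.subset ?_
  rintro ν ⟨h1, h2⟩
  refine ⟨h1, fun h3 => h2 ?_⟩
  rw [Pi.smul_apply, h3, smul_zero]

theorem cl_add {D E : DVal L → ℤ} (hD : IsDiv S.prm D) (hE : IsDiv S.prm E) :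
    S.cl (D + E) = S.cl D + S.cl E :=
  LibLB.clOf_add hD hE

theorem cl_sub {D E : DVal L → ℤ} (hD : IsDiv S.prm D) (hE : IsDiv S.prm E) :
    S.cl (D - E) = S.cl D - S.cl E := by
  have h : D - E = D + fun ν => - E ν := by
    funext ν
    exact sub_eq_add_neg _ _
  rw [h, cl_add S hD hE.neg, sub_eq_add_neg]
  congr 1
  exact LibLB.clOf_neg hE

theorem cl_nsmul {D : DVal L → ℤ} (hD : IsDiv S.prm D) (n : ℕ) :
    S.cl (n • D) = n • S.cl D := by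
  have h : n • D = fun ν => (n : ℤ) * D ν := by
    funext ν
    rw [Pi.smul_apply, nsmul_eq_mul]
  rw [h]
  refine (LibLB.clOf_zsmul (n : ℤ) hD).trans ?_
  rw [natCast_zsmul]
  rfl

theorem cl_dlt {ν : DVal L} (hν : ν ∈ S.prm) : S.cl (dlt ν) = S.cls ν := by
  rw [dlt_eq_prd]
  exact LibLB.clOf_prd hν

theorem cl_Fn {F : DVal L → ℤ} (hF : IsDiv S.prm F) (n : ℕ) :
    S.cl (F + n • S.rep S.A) = n • S.A + S.cl F := by
  rw [cl_add S hF (isDiv_nsmul S (S.isDiv_rep _) n), cl_nsmul S (S.isDiv_rep _), S.cl_rep,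
    add_comm]

/-- Sections of `α - [ν]`. -/
theorem hh_sub (α : S.Λ) {ν : DVal L} (hν : ν ∈ S.prm) :
    S.hh (α - S.cls ν) = h0 S.prm (S.rep α - dlt ν) := by
  have h1 : IsDiv S.prm (S.rep α - dlt ν) := IsDiv.sub' (S.isDiv_rep α) (isDiv_dlt _ _)
  have h2 : S.cl (S.rep α - dlt ν) = α - S.cls ν := by
    rw [cl_sub S (S.isDiv_rep α) (isDiv_dlt _ _), cl_dlt S hν, S.cl_rep]
  rw [← h2]
  exact PSurf.hh_cl h1

theorem hh_serre (F : S.Λ) : ∃ k0 : ℕ, ∀ k : ℕ, k0 ≤ k →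
    2 * (S.hh (k • S.A + F) : ℤ) = 2 * S.chi0 + S.form (k • S.A + F) (k • S.A + F - S.K) := by
  obtain ⟨k0, h⟩ := S.serre F
  refine ⟨k0, fun k hk => ?_⟩
  have h1 := (h k hk (S.rep (k • S.A + F)) (S.isDiv_rep _) (S.cl_rep _)).1
  have h2 : LibLB.clOf S.prm S.cls (S.rep (k • S.A + F)) = k • S.A + F := S.cl_rep _
  rw [h2] at h1
  exact h1

/-- half of `c ^ 2 + K c`. -/
noncomputable def w (c : S.Λ) : ℤ := (S.parity c).choose

theorem w_spec (c : S.Λ) : S.form c c + S.form S.K c = 2 * w S c := by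
  have h := (S.parity c).choose_spec
  rw [two_mul]
  exact h

/-- The growth of `h⁰(n A + F) - h⁰(n A + F - ν)`. -/
theorem lin_aux {ν : DVal L} (hν : ν ∈ S.prm) {F : DVal L → ℤ} (hF : IsDiv S.prm F) :
    ∃ n₀ : ℕ, ∀ n : ℕ, n₀ ≤ n →
      (h0 S.prm (F + n • S.rep S.A) : ℤ) - h0 S.prm (F + n • S.rep S.A - dlt ν) =
        (S.form (S.cl F) (S.cls ν) - w S (S.cls ν)) + n * S.form S.A (S.cls ν) := by
  obtain ⟨k1, h1⟩ := hh_serre S (S.cl F)
  obtain ⟨k2, h2⟩ := hh_serre S (S.cl F - S.cls ν)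
  refine ⟨k1 + k2, fun n hn => ?_⟩
  have h3 := h1 n (by omega)
  have h4 := h2 n (by omega)
  have hX : IsDiv S.prm (F + n • S.rep S.A) := IsDiv.add' hF (isDiv_nsmul S (S.isDiv_rep _) n)
  have h5 : (h0 S.prm (F + n • S.rep S.A) : ℤ) = S.hh (n • S.A + S.cl F) := by
    rw [← cl_Fn S hF n, PSurf.hh_cl hX]
  have h6 : (h0 S.prm (F + n • S.rep S.A - dlt ν) : ℤ) =
      S.hh (n • S.A + (S.cl F - S.cls ν)) := by
    rw [← add_sub_assoc, ← cl_Fn S hF n, ← cl_dlt S hν, ← cl_sub S hX (isDiv_dlt _ _),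
      PSurf.hh_cl (IsDiv.sub' hX (isDiv_dlt _ _))]
  have h7 := w_spec S (S.cls ν)
  rw [h5, h6]
  have h8 : S.form (n • S.A + (S.cl F - S.cls ν)) (n • S.A + (S.cl F - S.cls ν) - S.K) =
      S.form (n • S.A + S.cl F) (n • S.A + S.cl F - S.K) -
        2 * (n * S.form S.A (S.cls ν) + S.form (S.cl F) (S.cls ν)) +
        (S.form (S.cls ν) (S.cls ν) + S.form S.K (S.cls ν)) := by
    simp only [map_sub, map_add, map_nsmul, LinearMap.add_apply, LinearMap.sub_apply,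
      LinearMap.smul_apply, nsmul_eq_mul]
    rw [S.symm (S.cls ν) S.A, S.symm (S.cls ν) (S.cl F), S.symm (S.cls ν) S.K]
    ring
  rw [h8] at h4
  linarith

/-- The geometric data of a surface. -/
noncomputable def toGeo : Geo L where
  prm := S.prm
  pts := S.pts
  dim := S.dim
  coord := S.coord
  ess := S.ess
  finDiv := S.finDiv
  centre := S.centre
  infPts := S.infPts
  finSec := S.finSec
  A := S.rep S.A
  divA := S.isDiv_rep _
  sep := S.sep _ (S.isDiv_rep _) (S.cl_rep _)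
  gen := by
    intro D hD
    obtain ⟨k0, h⟩ := S.serre (S.cl D)
    refine ⟨k0, fun n hn x hx => ?_⟩
    exact (h n hn (D + n • S.rep S.A) (IsDiv.add' hD (isDiv_nsmul S (S.isDiv_rep _) n))
      (cl_Fn S hD n)).2.2 x hx
  lin := by
    intro ν hν D hD
    obtain ⟨n₀, h⟩ := lin_aux S hν hD
    exact ⟨_, _, n₀, h⟩

/-- **The curve theorems for classes.** -/
theorem curve {ν : DVal L} (hν : ν ∈ S.prm) :
    1 ≤ S.form S.A (S.cls ν) ∧
    0 ≤ 2 + S.form (S.cls ν) (S.cls ν) + S.form S.K (S.cls ν) ∧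
    (∀ α, S.hh (α - S.cls ν) < S.hh α → 0 ≤ S.form α (S.cls ν)) ∧
    (∀ α, 0 ≤ S.form α (S.cls ν) →
      (S.hh α : ℤ) ≤ S.hh (α - S.cls ν) + S.form α (S.cls ν) + 1) ∧
    (∃ c₀ : ℤ, ∀ α, c₀ ≤ S.form α (S.cls ν) →
      2 * (S.hh α : ℤ) ≤ 2 * S.hh (α - S.cls ν) + 2 * S.form α (S.cls ν) -
        S.form (S.cls ν) (S.cls ν) - S.form S.K (S.cls ν)) ∧
    (∀ μ ∈ S.prm, μ ≠ ν → 0 ≤ S.form (S.cls μ) (S.cls ν)) ∧
    ∀ μ ∈ S.prm, μ ≠ ν → ∀ x ∈ S.pts, x ≤ ν.ring → x ≤ μ.ring →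
      1 ≤ S.form (S.cls μ) (S.cls ν) := by
  obtain ⟨a, e, ha, h1, -, h3, h4, h5, ⟨c₀, h6⟩, h7, h8⟩ := geo_curve (toGeo S) (ν := ν) hν
  change ∀ D, IsDiv S.prm D → ∃ n₀ : ℕ, ∀ n : ℕ, n₀ ≤ n →
    (h0 S.prm (D + n • S.rep S.A) : ℤ) - h0 S.prm (D + n • S.rep S.A - dlt ν) = e D + n * a at h1
  change ∀ D, IsDiv S.prm D → h0 S.prm (D - dlt ν) < h0 S.prm D → e 0 ≤ e D at h4
  change ∀ D, IsDiv S.prm D → e 0 ≤ e D →
    (h0 S.prm D : ℤ) ≤ h0 S.prm (D - dlt ν) + (e D - e 0 + 1) at h5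
  change ∀ D, IsDiv S.prm D → c₀ ≤ e D → (h0 S.prm D : ℤ) ≤ h0 S.prm (D - dlt ν) + e D at h6
  change ∀ μ ∈ S.prm, μ ≠ ν → e 0 ≤ e (dlt μ) at h7
  change ∀ μ ∈ S.prm, μ ≠ ν → ∀ x ∈ S.pts, x ≤ ν.ring → x ≤ μ.ring → e 0 + 1 ≤ e (dlt μ) at h8
  have key : ∀ D, IsDiv S.prm D → a = S.form S.A (S.cls ν) ∧
      e D = S.form (S.cl D) (S.cls ν) - w S (S.cls ν) := by
    intro D hD
    obtain ⟨n₁, hn₁⟩ := h1 D hD
    obtain ⟨n₂, hn₂⟩ := lin_aux S hν hD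
    have h9 := hn₁ (n₁ + n₂) (by omega)
    have h10 := hn₂ (n₁ + n₂) (by omega)
    have h11 := hn₁ (n₁ + n₂ + 1) (by omega)
    have h12 := hn₂ (n₁ + n₂ + 1) (by omega)
    rw [h10] at h9
    rw [h12] at h11
    push_cast at h9 h11
    have h13 : a = S.form S.A (S.cls ν) := by linarith
    refine ⟨h13, ?_⟩
    rw [h13] at h9
    linarith
  have hz : IsDiv S.prm (0 : DVal L → ℤ) := LibKB2.isDiv_zero S.prm
  have ha' := (key 0 hz).1
  have he0 : e 0 = - w S (S.cls ν) := by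
    rw [(key 0 hz).2]
    have h9 : S.cl (0 : DVal L → ℤ) = 0 := by
      have h10 := cl_sub S hz hz
      rwa [sub_zero, sub_self] at h10
    rw [h9, map_zero, LinearMap.zero_apply]
    ring
  have hw := w_spec S (S.cls ν)
  have hrep : ∀ α : S.Λ, e (S.rep α) = S.form α (S.cls ν) - w S (S.cls ν) := by
    intro α
    rw [(key _ (S.isDiv_rep α)).2, S.cl_rep]
  have hdl : ∀ μ ∈ S.prm, e (dlt μ) = S.form (S.cls μ) (S.cls ν) - w S (S.cls ν) := by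
    intro μ hμ
    rw [(key _ (isDiv_dlt _ _)).2, cl_dlt S hμ]
  refine ⟨?_, ?_, ?_, ?_, ⟨c₀ + w S (S.cls ν), ?_⟩, ?_, ?_⟩
  · omega
  · omega
  · intro α h
    rw [hh_sub S α hν] at h
    have h9 := h4 (S.rep α) (S.isDiv_rep α) h
    rw [hrep] at h9
    omega
  · intro α h
    have h9 := h5 (S.rep α) (S.isDiv_rep α) (by rw [hrep]; omega)
    rw [hrep, ← hh_sub S α hν] at h9
    have h10 : (h0 S.prm (S.rep α) : ℤ) = S.hh α := rfl
    rw [h10] at h9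
    omega
  · intro α h
    have h9 := h6 (S.rep α) (S.isDiv_rep α) (by rw [hrep]; omega)
    rw [hrep, ← hh_sub S α hν] at h9
    have h10 : (h0 S.prm (S.rep α) : ℤ) = S.hh α := rfl
    rw [h10] at h9
    omega
  · intro μ hμ hne
    have h9 := h7 μ hμ hne
    rw [hdl μ hμ] at h9
    omega
  · intro μ hμ hne x hx h10 h11
    have h9 := h8 μ hμ hne x hx h10 h11
    rw [hdl μ hμ] at h9
    omega

end Pool.Agent.LibCUR2
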