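import Pool.Agent.LibCUR2.Abs
import Pool.Agent.LibCUR2.Geo

/-!
THEOREM K+, block CUR-2: curves and the Hodge index theorem on a `PSurf`, in the form of the fields
of `LibL.SurfB`.
-/

set_option autoImplicit false

open Pool.Agent.LibGMM Pool.Agent.LibK Pool.Agent.LibKB

namespace Pool.Agent.LibCUR2

open Pool.Agent.LibKB2 (dlt dlt_self dlt_ne isDiv_dlt IsDiv.add' IsDiv.neg' IsDiv.sub' IsDiv.zsmul')
open Pool.Agent.LibLB

variable {L : Type} [Field L] [Algebra ℂ L] (S : PSurf L)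

/-! ### Curves -/

theorem A_pos {ν : DVal L} (hν : ν ∈ S.prm) : 1 ≤ S.form S.A (S.cls ν) := (curve S hν).1

theorem pa_nonneg {ν : DVal L} (hν : ν ∈ S.prm) :
    0 ≤ 2 + S.form (S.cls ν) (S.cls ν) + S.form S.K (S.cls ν) := (curve S hν).2.1

/-- Removing a prime divisor. -/
theorem hh_mono {ν : DVal L} (hν : ν ∈ S.prm) (α : S.Λ) : S.hh (α - S.cls ν) ≤ S.hh α := by
  rw [hh_sub S α hν]
  have := S.finSec (S.rep α) (S.isDiv_rep α)
  refine Submodule.finrank_mono (sec_mono fun μ _ => ?_)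
  rw [Pi.sub_apply, dlt_eq_prd]
  have := prd_nonneg ν μ
  omega

theorem C1 {ν : DVal L} (hν : ν ∈ S.prm) (α : S.Λ) (h : S.form α (S.cls ν) < 0) :
    S.hh α = S.hh (α - S.cls ν) := by
  refine le_antisymm (not_lt.1 fun h1 => ?_) (hh_mono S hν α)
  exact absurd ((curve S hν).2.2.1 α h1) (not_le.2 h)

theorem C2 {ν : DVal L} (hν : ν ∈ S.prm) (α : S.Λ) (h : 0 ≤ S.form α (S.cls ν)) :
    (S.hh α : ℤ) ≤ S.hh (α - S.cls ν) + S.form α (S.cls ν) + 1 := (curve S hν).2.2.2.1 α h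

theorem C4 {ν : DVal L} (hν : ν ∈ S.prm) : ∃ c₀ : ℤ, ∀ α, c₀ ≤ S.form α (S.cls ν) →
    2 * (S.hh α : ℤ) ≤ 2 * S.hh (α - S.cls ν) + 2 * S.form α (S.cls ν) -
      S.form (S.cls ν) (S.cls ν) - S.form S.K (S.cls ν) := (curve S hν).2.2.2.2.1

theorem C1' {ν μ : DVal L} (hν : ν ∈ S.prm) (hμ : μ ∈ S.prm) (h : ν ≠ μ) :
    0 ≤ S.form (S.cls ν) (S.cls μ) := (curve S hμ).2.2.2.2.2.1 ν hν h

/-- Two curves through a point. -/
theorem inter_pos {ν μ : DVal L} (hν : ν ∈ S.prm) (hμ : μ ∈ S.prm) (h : ν ≠ μ)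
    {x : Subalgebra ℂ L} (hx : x ∈ S.pts) (h1 : x ≤ ν.ring) (h2 : x ≤ μ.ring) :
    1 ≤ S.form (S.cls ν) (S.cls μ) := (curve S hμ).2.2.2.2.2.2 ν hν h x hx h2 h1

/-! ### Effective classes -/

theorem exists_effDiv {α : S.Λ} (h : 0 < S.hh α) :
    ∃ E, IsDiv S.prm E ∧ (∀ ν ∈ S.prm, 0 ≤ E ν) ∧ S.cl E = α := by
  have hbot : sec S.prm (S.rep α) ≠ ⊥ := by
    intro h1
    change 0 < h0 S.prm (S.rep α) at h
    unfold h0 at h
    rw [h1, finrank_bot] at h
    exact lt_irrefl _ h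
  obtain ⟨f, hf, hf0⟩ := Submodule.exists_mem_ne_zero_of_ne_bot hbot
  have h1 : IsDiv S.prm (fun ν => ν.ord f) := S.finDiv f hf0
  refine ⟨S.rep α + fun ν => ν.ord f, IsDiv.add' (S.isDiv_rep α) h1, fun ν hν => ?_, ?_⟩
  · have h2 := hf ν hν hf0
    rw [Pi.add_apply, add_comm]
    exact h2
  · rw [cl_add S (S.isDiv_rep α) h1, S.cl_rep]
    have h2 : S.cl (fun ν => ν.ord f) = 0 := S.cl_div f hf0
    rw [h2, add_zero]

/-- A class which is nonnegative on all curves is nonnegative on effective divisors. -/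
theorem form_effDiv {β : S.Λ} (h : ∀ ν ∈ S.prm, 0 ≤ S.form β (S.cls ν)) {E : DVal L → ℤ}
    (hE : ∀ ν ∈ S.prm, 0 ≤ E ν) : 0 ≤ S.form β (S.cl E) := by
  change 0 ≤ S.form β (∑ᶠ ν ∈ S.prm, E ν • S.cls ν)
  refine finsum_mem_induction (fun v : S.Λ => 0 ≤ S.form β v) ?_ ?_ ?_
  · rw [map_zero]
  · intro u v hu hv
    rw [map_add]
    exact add_nonneg hu hv
  · intro ν hν
    rw [map_smul, smul_eq_mul]
    exact mul_nonneg (hE ν hν) (h ν hν)

theorem form_eff {β α : S.Λ} (h : ∀ ν ∈ S.prm, 0 ≤ S.form β (S.cls ν)) (hα : 0 < S.hh α) :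
    0 ≤ S.form β α := by
  obtain ⟨E, -, hE, rfl⟩ := exists_effDiv S hα
  exact form_effDiv S h hE

/-- An effective class of degree zero is zero. -/
theorem eq_zero_of_deg {α : S.Λ} (hα : 0 < S.hh α) (h : S.form S.A α = 0) : α = 0 := by
  obtain ⟨E, hE1, hE, rfl⟩ := exists_effDiv S hα
  have h1 : ∀ μ ∈ S.prm, E μ = 0 := by
    intro μ hμ
    by_contra h2
    have h3 : 1 ≤ E μ := by
      have := hE μ hμ
      omega
    have h4 : ∀ ν ∈ S.prm, 0 ≤ (E - dlt μ) ν := by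
      intro ν hν
      rw [Pi.sub_apply]
      by_cases h5 : ν = μ
      · rw [h5, dlt_self]
        omega
      · rw [dlt_ne h5, sub_zero]
        exact hE ν hν
    have h5 := form_effDiv S (β := S.A) (fun ν hν => zero_le_one.trans (A_pos S hν)) h4
    rw [cl_sub S hE1 (isDiv_dlt _ _), map_sub, h, cl_dlt S hμ] at h5
    have h6 := A_pos S hμ
    omega
  change LibLB.clOf S.prm S.cls E = 0
  rw [LibLB.clOf_congr (D' := fun _ => 0) h1]
  unfold LibLB.clOf
  simp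

/-- `k A + F` is nef for large `k`. -/
theorem nef_serre (F : S.Λ) : ∃ k0 : ℕ, ∀ k : ℕ, k0 ≤ k → ∀ ν ∈ S.prm,
    0 ≤ S.form (k • S.A + F) (S.cls ν) := by
  obtain ⟨k0, h⟩ := S.serre F
  refine ⟨k0, fun k hk ν hν => ?_⟩
  obtain ⟨x, hx, hxν⟩ := (S.infPts ν hν).nonempty
  obtain ⟨f, hf1, hf2, hf3⟩ := (h k hk (S.rep (k • S.A + F)) (S.isDiv_rep _) (S.cl_rep _)).2.2 x hx
  refine (curve S hν).2.2.1 _ ?_
  rw [hh_sub S _ hν]
  have := S.finSec (S.rep (k • S.A + F)) (S.isDiv_rep _)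
  refine Submodule.finrank_lt_finrank_of_lt (lt_of_le_of_ne (sec_mono fun μ _ => ?_) fun heq => ?_)
  · rw [Pi.sub_apply, dlt_eq_prd]
    have := prd_nonneg ν μ
    omega
  · rw [← heq] at hf1
    have h1 := hf1 ν hν hf2
    have h2 := hf3 ν hν hxν
    rw [Pi.sub_apply, dlt_self] at h1
    omega

/-- The numerical data of a surface. -/
noncomputable def toNumData : NumData S.Λ where
  form := S.form
  K := S.K
  A := S.A
  hh := S.hh
  chi0 := S.chi0
  symm := S.symm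
  rr := S.rr'
  A_sq := by
    have := S.A_sq
    omega
  deg := by
    intro α h
    exact ⟨form_eff S (fun ν hν => zero_le_one.trans (A_pos S hν)) h, eq_zero_of_deg S h⟩
  nef := by
    intro F
    obtain ⟨k0, h⟩ := nef_serre S F
    exact ⟨k0, fun α hα => form_eff S (h k0 le_rfl) hα⟩

/-- **The Hodge index theorem.** -/
theorem hodge {D : S.Λ} (h : S.form S.A D = 0) :
    S.form D D < 0 ∨ ∀ E, S.form D E = 0 := (toNumData S).hodge (D := D) h

/-- A numerically trivial class is pseudo-effective. -/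
theorem exists_eff {D : S.Λ} (h : ∀ E, S.form D E = 0) :
    ∃ t : ℕ, ∀ n : ℤ, 0 < S.hh (t • S.A + n • D) := (toNumData S).exists_eff h

/-- `hh 0 = 1`. -/
theorem hh_zero : S.hh (0 : S.Λ) = 1 := by
  have hz : IsDiv S.prm (0 : DVal L → ℤ) := LibKB2.isDiv_zero S.prm
  have h9 : S.cl (0 : DVal L → ℤ) = 0 := by
    have h10 := cl_sub S hz hz
    rwa [sub_zero, sub_self] at h10
  rw [← h9, PSurf.hh_cl hz]
  have h1 : sec S.prm (0 : DVal L → ℤ) = Submodule.span ℂ {(1 : L)} := by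
    apply le_antisymm
    · intro f hf
      have h2 : ∀ x ∈ S.pts, f ∈ x := by
        intro x hx
        rw [(S.pt hx).mem_iff]
        intro ν hν _
        by_cases h0 : f = 0
        · rw [h0, ν.ord_zero]
        · have h3 := hf ν hν h0
          simpa using h3
      have h4 : f ∈ Set.range (algebraMap ℂ L) := by
        apply LibCUR.mem_const_of_forall f
        intro W hW
        obtain ⟨x, hx, h5⟩ := S.exists_le W hW
        exact h5 f (h2 x hx)
      obtain ⟨c, rfl⟩ := h4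
      rw [Submodule.mem_span_singleton]
      exact ⟨c, by rw [Algebra.smul_def, mul_one]⟩
    · rw [Submodule.span_singleton_le_iff_mem]
      intro ν _ _
      rw [Pool.Agent.LibKB.ord_one]
      simp
  unfold h0
  rw [h1, finrank_span_singleton one_ne_zero]

end Pool.Agent.LibCUR2
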